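import Pool.Agent.Fcl2.FIN
import Pool.Agent.Fcl2.NIL

set_option autoImplicit false

/-!
# Formations with a distributive lattice of subformations: Sylow subgroups of class two

Let `F` be a formation of finite groups such that, for every `G` in `F` and every prime `p` dividing
the order of the Frattini subgroup of `G`, either the Sylow `p`-subgroups of `G` are abelian, or they
have class at most two and the derived subgroup of `G` is `p`-nilpotent. Then the lattice of
subformations of `F` (here `Set.Iic F`, ordered by inclusion) is distributive.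
-/

namespace Pool.Agent.Results.MP_3bd419_al.ClassTwo

open Pool.Agent.Formn Pool.Agent.Formn.Formation
open scoped commutatorElement

/-- The Sylow `p`-subgroups of `G` are abelian. -/
def SylowAbelian (p : ℕ) (G : Type) [Group G] : Prop :=
  ∀ P : Sylow p G, ∀ x ∈ P, ∀ y ∈ P, x * y = y * x

/-- The Sylow `p`-subgroups of `G` have nilpotency class at most two: commutators of elements of a
Sylow `p`-subgroup commute with its elements. -/
def SylowClassTwo (p : ℕ) (G : Type) [Group G] : Prop :=
  ∀ P : Sylow p G, ∀ x ∈ P, ∀ y ∈ P, ∀ z ∈ P, ⁅x, y⁆ * z = z * ⁅x, y⁆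

/-- The derived subgroup of `G` is `p`-nilpotent: `G` has a normal subgroup `K` of order prime to `p`
such that every element of the derived subgroup has a `p`-power power in `K`. -/
def DerivedPNilpotent (p : ℕ) (G : Type) [Group G] : Prop :=
  ∃ K : Subgroup G, K.Normal ∧ ¬ p ∣ Nat.card K ∧ ∀ x ∈ commutator G, ∃ k : ℕ, x ^ p ^ k ∈ K

theorem lcs_two {p : ℕ} {G : Type} [Group G] (h : SylowClassTwo p G) (P : Sylow p G) :
    (P : Subgroup G).lowerCentralSeries 2 = ⊥ := by
  rw [Subgroup.lowerCentralSeries_succ, Subgroup.lowerCentralSeries_succ,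
    Subgroup.lowerCentralSeries_zero, eq_bot_iff, Subgroup.commutator_le]
  intro x hx z hz
  rw [Subgroup.mem_bot, commutatorElement_eq_one_iff_mul_comm]
  refine Subgroup.closure_induction (p := fun x _ => x * z = z * x) ?_ ?_ ?_ ?_ hx
  · rintro _ ⟨a, ha, b, hb, rfl⟩
    exact h P a ha b hb z hz
  · rw [one_mul, mul_one]
  · intro a b _ _ ha hb
    rw [mul_assoc, hb, ← mul_assoc, ha, mul_assoc]
  · intro a _ ha
    have : Commute a z := ha
    exact this.inv_left

/-- (1) Let `F` be a formation of finite groups such that, for every `G` in `F` and every prime `p`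
dividing the order of the Frattini subgroup of `G`, either the Sylow `p`-subgroups of `G` are
abelian, or they have class at most two and the derived subgroup of `G` is `p`-nilpotent. Then the
lattice of subformations of `F` is distributive.
(2) In particular this holds for every formation consisting of groups with nilpotent derived subgroup
all of whose Sylow subgroups have class at most two. -/
theorem result :
    (∀ F : Formation,
      (∀ (G : Type) [Group G] [Finite G], F.mem G → ∀ p : ℕ, p.Prime →
        p ∣ Nat.card (frattini G) →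
          SylowAbelian p G ∨ (SylowClassTwo p G ∧ DerivedPNilpotent p G)) →
      ∀ x y z : Set.Iic F, x ⊓ (y ⊔ z) = (x ⊓ y) ⊔ (x ⊓ z)) ∧
    (∀ F : Formation,
      (∀ (G : Type) [Group G] [Finite G], F.mem G →
        Group.IsNilpotent (commutator G) ∧ ∀ p : ℕ, p.Prime → SylowClassTwo p G) →
      ∀ x y z : Set.Iic F, x ⊓ (y ⊔ z) = (x ⊓ y) ⊔ (x ⊓ z)) := by
  have key : ∀ F : Formation,
      (∀ (G : Type) [Group G] [Finite G], F.mem G → ∀ p : ℕ, p.Prime →
        p ∣ Nat.card (frattini G) →
          SylowAbelian p G ∨ (SylowClassTwo p G ∧ DerivedPNilpotent p G)) →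
      ∀ x y z : Set.Iic F, x ⊓ (y ⊔ z) = (x ⊓ y) ⊔ (x ⊓ z) := by
    intro F hF
    have hcrit : Crit F := by
      refine Pool.Agent.Fcl2.crit_two F (fun G _ _ hG p hp hpf => ?_)
      rcases hF G hG p hp hpf with h | ⟨h1, h2⟩
      · exact Or.inl h
      · exact Or.inr ⟨fun P => lcs_two h1 P, h2⟩
    rintro ⟨X, hX⟩ ⟨Y, hY⟩ ⟨Z, hZ⟩
    exact Subtype.ext ((crit_iff F).2 hcrit X Y Z hX hY hZ)
  refine ⟨key, fun F hF => key F (fun G _ _ hG p hp _ => Or.inr ⟨(hF G hG).2 p hp, ?_⟩)⟩
  exact Pool.Agent.Fcl2.exists_K (hF G hG).1 p hp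

end Pool.Agent.Results.MP_3bd419_al.ClassTwo
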