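import Pool.Agent.FormZ.Main

set_option autoImplicit false

/-!
# Formations with a distributive lattice of subformations: saturated and Fitting formations

* For every prime `p` there is an explicit finite metabelian `p`-group which lies in no formation
  with a distributive lattice of subformations.
* For solubly saturated formations and for Fitting formations `F` the lattice `L(F)` is
  distributive if and only if no group in `F` has a nontrivial abelian normal subgroup.
* For saturated formations `F` the lattice `L(F)` is distributive if and only if all groups in `F`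
  are trivial.
-/

namespace Pool.Agent.Results.MP_3bd419_al.SaturatedFitting

open Pool.Agent.Formn Pool.Agent.Formn.Formation Pool.Agent.FormZ
open scoped commutatorElement

/-- (1) For every prime `p` there is a finite metabelian `p`-group `X` such that `L(F)` is not
distributive for all formations `F` containing `X`.
(2) If `F` is weakly `p`-saturated and `L(F)` is distributive, then no group in `F` has a nontrivial
normal `p`-subgroup.
(3) If `F` is weakly `p`-saturated for all primes `p`, or solubly saturated, or a Fitting
formation, then `L(F)` is distributive if and only if no group in `F` has a nontrivial abelian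
normal subgroup.
(4) If `F` is saturated, then `L(F)` is distributive if and only if all groups in `F` are
trivial. -/
theorem result :
    (∀ p : ℕ, p.Prime → ∃ (X : Type) (_ : Group X) (_ : Finite X), IsPGroup p X ∧
      (∀ x y z w : X, ⁅⁅x, y⁆, ⁅z, w⁆⁆ = 1) ∧
      ∀ F : Formation, F.mem X → ¬ ∀ x y z : Set.Iic F, x ⊓ (y ⊔ z) = (x ⊓ y) ⊔ (x ⊓ z)) ∧
    (∀ (F : Formation) (p : ℕ), p.Prime → WSat F p →
      (∀ x y z : Set.Iic F, x ⊓ (y ⊔ z) = (x ⊓ y) ⊔ (x ⊓ z)) →
      ∀ (G : Type) [Group G] [Finite G] (N : Subgroup G) [N.Normal], F.mem G → IsPGroup p N →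
        N = ⊥) ∧
    (∀ F : Formation, ((∀ p : ℕ, p.Prime → WSat F p) ∨ SolSaturated F ∨ Fitting F) →
      ((∀ x y z : Set.Iic F, x ⊓ (y ⊔ z) = (x ⊓ y) ⊔ (x ⊓ z)) ↔
        ∀ (G : Type) [Group G] [Finite G] (A : Subgroup G) [A.Normal], F.mem G →
          (∀ a ∈ A, ∀ b ∈ A, a * b = b * a) → A = ⊥)) ∧
    (∀ F : Formation, Saturated F →
      ((∀ x y z : Set.Iic F, x ⊓ (y ⊔ z) = (x ⊓ y) ⊔ (x ⊓ z)) ↔
        ∀ (G : Type) [Group G] [Finite G], F.mem G → Subsingleton G)) := by
  refine ⟨?_, ?_, ?_, ?_⟩
  · intro p hp
    have : Fact p.Prime := ⟨hp⟩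
    exact ⟨XG p, inferInstance, inferInstance, isPGroup_XG, metabelian_XG,
      fun F hF => obstruction F hF⟩
  · intro F p hp hW hD
    have : Fact p.Prime := ⟨hp⟩
    exact noNormalP F p hW hD
  · intro F hF
    refine distrib_iff_noAb F ?_
    rcases hF with hF | hF | hF
    · exact Or.inl hF
    · refine Or.inl fun p hp => ?_
      have : Fact p.Prime := ⟨hp⟩
      exact hF.wSat p
    · exact Or.inr hF
  · intro F hF
    exact distrib_iff_trivial F hF

end Pool.Agent.Results.MP_3bd419_al.SaturatedFitting
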