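import Pool.Agent.Formn.Main

set_option autoImplicit false

/-!
# Formations with a distributive lattice of subformations: an exact criterion

`L(F)` (here `Set.Iic F`, the subformations of `F` ordered by inclusion) is distributive if and only
if a condition holds for those groups `A` of `F` whose socle lies in the Frattini subgroup and is
the join of two minimal normal subgroups `N₁, N₂`, while there is a third minimal normal subgroup
`N₃`: such an `A` has to lie in the join of the three formations `form (A/Nᵢ) ∩ form (A/Nⱼ)`.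
-/

namespace Pool.Agent.Results.MP_3bd419_al.SocleCriterion

open Pool.Agent.Formn Pool.Agent.Formn.Formation

/-- The lattice of subformations of `F` is distributive if and only if every group `A` of `F` with
three distinct minimal normal subgroups `N₁, N₂, N₃` and with `Soc A = N₁ N₂ ≤ Φ(A)` lies in the
join of the formations `form (A/Nᵢ) ∩ form (A/Nⱼ)`, `i < j`. -/
theorem result (F : Formation) :
    (∀ x y z : Set.Iic F, x ⊓ (y ⊔ z) = (x ⊓ y) ⊔ (x ⊓ z)) ↔
      ∀ (A : Type) [Group A] [Finite A] (N₁ N₂ N₃ : Subgroup A)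
        [N₁.Normal] [N₂.Normal] [N₃.Normal], F.mem A →
        IsMinNormal N₁ → IsMinNormal N₂ → IsMinNormal N₃ →
        N₁ ≠ N₂ → N₁ ≠ N₃ → N₂ ≠ N₃ → socle A = N₁ ⊔ N₂ → socle A ≤ frattini A →
        ((gen (A ⧸ N₁) ⊓ gen (A ⧸ N₂)) ⊔ (gen (A ⧸ N₁) ⊓ gen (A ⧸ N₃)) ⊔
          (gen (A ⧸ N₂) ⊓ gen (A ⧸ N₃))).mem A := by
  refine Iff.trans ?_ (crit_iff F)
  constructor
  · intro h X Y Z hX hY hZ
    exact congrArg Subtype.val (h ⟨X, hX⟩ ⟨Y, hY⟩ ⟨Z, hZ⟩)
  · rintro h ⟨X, hX⟩ ⟨Y, hY⟩ ⟨Z, hZ⟩
    exact Subtype.ext (h X Y Z hX hY hZ)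

end Pool.Agent.Results.MP_3bd419_al.SocleCriterion
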