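import Pool.Agent.Fcl2.DICH

set_option autoImplicit false

/-!
# Formations with a distributive lattice of subformations: supersoluble groups

`UF c` is the formation of all supersoluble groups whose Sylow `q`-subgroups have nilpotency class at
most `c q`, for all primes `q`. Its lattice of subformations is distributive if and only if
`c q ≤ 2` for all primes `q` (assuming `1 ≤ c q` for all primes `q`, `c 2 ≤ 2` and `c 3 ≤ 2`).
-/

namespace Pool.Agent.Results.MP_3bd419_al.SupersolubleClass

open Pool.Agent.Formn Pool.Agent.Formn.Formation Pool.Agent.Fcl2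

/-- (1) For `c` with `1 ≤ c q` for all primes `q`, `c 2 ≤ 2`, `c 3 ≤ 2`, the lattice of subformations
of the formation `UF c` of the supersoluble groups whose Sylow `q`-subgroups have class at most `c q`,
for all primes `q`, is distributive if and only if `c q ≤ 2` for all primes `q`.
(2) For every prime `p ≥ 5` there is a finite supersoluble group `Y` whose Sylow `p`-subgroups have
class at most three and all of whose other Sylow subgroups are abelian, such that the lattice of
subformations of `F` is not distributive for any formation `F` containing `Y`. -/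
theorem result :
    (∀ c : ℕ → ℕ, (∀ q : ℕ, q.Prime → 1 ≤ c q) → c 2 ≤ 2 → c 3 ≤ 2 →
      ((∀ x y z : Set.Iic (UF c), x ⊓ (y ⊔ z) = (x ⊓ y) ⊔ (x ⊓ z)) ↔
        ∀ q : ℕ, q.Prime → c q ≤ 2)) ∧
    (∀ p : ℕ, p.Prime → 5 ≤ p → ∃ (Y : Type) (_ : Group Y) (_ : Finite Y),
      Supersol Y ∧ (∀ P : Sylow p Y, (P : Subgroup Y).lowerCentralSeries 3 = ⊥) ∧
      (∀ q : ℕ, q.Prime → q ≠ p → ∀ Q : Sylow q Y, ∀ x ∈ Q, ∀ y ∈ Q, x * y = y * x) ∧
      ∀ F : Formation, F.mem Y → ¬ ∀ x y z : Set.Iic F, x ⊓ (y ⊔ z) = (x ⊓ y) ⊔ (x ⊓ z)) := by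
  refine ⟨fun c h1 h2 h3 => dichotomy c h1 h2 h3, fun p hp hp5 => ?_⟩
  obtain ⟨Y, _, _, hY, hYF⟩ := p_Y p hp hp5
  exact ⟨Y, inferInstance, inferInstance, hY.1, hY.2.1, hY.2.2, hYF⟩

end Pool.Agent.Results.MP_3bd419_al.SupersolubleClass
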